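import Pool.Agent.Q273.MDR.Final

set_option autoImplicit false

/-! # When is the minimal-domination reconfiguration graph a tree? -/

namespace Pool.Agent.Results.MP_746574_co.TreeIffStar

open Pool.Q273.MDR

universe u

/-- For every finite graph `G` with at least one vertex: the reconfiguration graph `R(G)` of the
minimal dominating sets (`Pool.Q273.MDR.reconf`) is a tree if and only if `G` is isomorphic to the
disjoint union of an edgeless graph on `n ≥ 0` vertices and a star `K_{1,m}`, `m ≥ 0`. -/
theorem result {V : Type u} [Fintype V] [DecidableEq V] [Nonempty V] (G : SimpleGraph V) :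
    (reconf G).IsTree ↔ ∃ n m : ℕ,
      Nonempty (G ≃g ((⊥ : SimpleGraph (Fin n)) ⊕g completeBipartiteGraph (Fin 1) (Fin m))) := by
  rw [← starAt_iff_iso]
  constructor
  · intro h
    by_contra hcon
    obtain ⟨M, p, hp, -⟩ := exists_short_cycle G hcon
    exact h.2 p hp
  · rintro ⟨c, hc⟩
    exact star_isTree G hc

end Pool.Agent.Results.MP_746574_co.TreeIffStar
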